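import Pool.Agent.J4H7.WL.B

set_option autoImplicit false

/-!
# Waring's problem with the coefficients `1` and `λ`, unequal numbers of variables, part A (helper7)

The sum of the measures when some levels are left out.
-/

namespace Pool.Agent.J4H7.WM

open Real Set MeasureTheory Filter Topology Asymptotics
open Pool.Agent.J4H7.WE Pool.Agent.J4H7.WL

/-- the active levels -/
def act (n r i : ℕ) : Prop := if Even i then i / 2 < n else i / 2 < r

instance (n r i : ℕ) : Decidable (act n r i) := by unfold act; infer_instance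

/-- the sets of the levels -/
noncomputable def SA (n r : ℕ) (q X : ℝ) (i : ℕ) : Finset ℕ := if act n r i then SS q X i else {⌈lev q X i⌉₊}

lemma SA_sub {n r : ℕ} {q X : ℝ} (hq : 0 ≤ q) (hX : 1 ≤ X) (i : ℕ) : SA n r q X i ⊆ SS q X i := by
  unfold SA
  split_ifs
  · exact Finset.Subset.refl _
  · intro z hz
    rw [Finset.mem_singleton] at hz
    subst hz
    rw [mem_SS hX]
    have h1 := one_le_lev hq hX i
    exact ⟨Nat.le_ceil _, by have := (Nat.ceil_lt_add_one (show 0 ≤ lev q X i by linarith)).le; linarith⟩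

/-- the pairs -/
noncomputable def PPa (n r : ℕ) (q X : ℝ) (m : ℕ) : Finset (Fin m → ℕ × ℕ) :=
  Fintype.piFinset fun i : Fin m => SA n r q X i ×ˢ SA n r q X i

lemma mem_PPa {n r : ℕ} {q X : ℝ} {m : ℕ} {p : Fin m → ℕ × ℕ} :
    p ∈ PPa n r q X m ↔ ∀ i : Fin m, (p i).1 ∈ SA n r q X i ∧ (p i).2 ∈ SA n r q X i := by
  unfold PPa
  simp [Fintype.mem_piFinset, Finset.mem_product]

lemma PPa_sub {n r : ℕ} {q X : ℝ} (hq : 0 ≤ q) (hX : 1 ≤ X) {m : ℕ} {p : Fin m → ℕ × ℕ} (hp : p ∈ PPa n r q X m) :
    p ∈ PPs q X m := by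
  rw [mem_PPa] at hp
  rw [mem_PPs]
  exact fun i => ⟨SA_sub hq hX _ (hp i).1, SA_sub hq hX _ (hp i).2⟩

/-- the factor of a level -/
noncomputable def va (n r : ℕ) (q X : ℝ) (i : ℕ) : ℝ := if act n r i then 4 * lev q X i ^ 2 else 1

/-- the volume of the box -/
noncomputable def Va (n r : ℕ) (q X : ℝ) (m : ℕ) : ℝ := ∏ i : Fin m, va n r q X i

lemma va_pos {n r : ℕ} {q X : ℝ} (hX : 1 ≤ X) (i : ℕ) : 0 < va n r q X i := by
  unfold va
  have := lev_pos (q := q) hX i
  split_ifs <;> positivity

lemma Va_pos {n r : ℕ} {q X : ℝ} (hX : 1 ≤ X) (m : ℕ) : 0 < Va n r q X m :=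
  Finset.prod_pos fun i _ => va_pos hX _

/-- the exponents -/
noncomputable def ea (n r : ℕ) (q : ℝ) (i : ℕ) : ℝ := if act n r i then q ^ i else 0

/-- **the sum of the weights** -/
lemma sum_leA {n r : ℕ} {q X a b t κ : ℝ} {m : ℕ} (hq : 0 < q) (hq1 : q < 1) (hX : 1 ≤ X) (hab : a ≤ b)
    (ht : 0 ≤ t) (hκ : 0 ≤ κ)
    (hB : ∀ i0 < m, act n r i0 → a - κ ≤ ∑ i ∈ Finset.range i0, ea n r q i + a * q ^ i0)
    (hC : a ≤ ∑ i ∈ Finset.range m, ea n r q i) :
    ∑ p ∈ PPa n r q X m, ((b - a) * ∏ i, (if (p i).1 = (p i).2 then (1 : ℝ) else 0) +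
        ∑ i0 : Fin m, 2 * t * (lev q X i0) ^ (1 - a) * ∏ i, psi i0 i (p i)) ≤
      Va n r q X m * X ^ (-a + κ) * ((b - a) + m * (2 * t * (1 + Real.log (2 * X)))) := by
  have hX0 : 0 < X := by linarith
  have hV : 0 ≤ Va n r q X m := (Va_pos hX m).le
  have hLX : 0 ≤ 1 + Real.log (2 * X) := by
    have := Real.log_nonneg (show (1 : ℝ) ≤ 2 * X by linarith)
    linarith
  -- the cardinalities
  have hcard : ∀ i : Fin m, ((SA n r q X i).card : ℝ) ≤ va n r q X i * X ^ (-(ea n r q i)) := by
    intro i
    unfold SA va ea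
    by_cases h : act n r i
    · rw [if_pos h, if_pos h, if_pos h]
      have h1 := SS_card hq.le hX (i : ℕ)
      have h2 := lev_pos (q := q) hX (i : ℕ)
      have hinv : X ^ (-(q ^ (i : ℕ))) = (lev q X i)⁻¹ := by
        unfold lev
        rw [Real.rpow_neg hX0.le]
      rw [hinv]
      have h3 : 4 * lev q X i ^ 2 * (lev q X i)⁻¹ = 4 * lev q X i := by field_simp
      rw [h3]
      linarith
    · rw [if_neg h, if_neg h, if_neg h]
      simp
  have hdiag : ∀ i : Fin m, ∑ z ∈ SA n r q X i ×ˢ SA n r q X i, (if z.1 = z.2 then (1 : ℝ) else 0) = (SA n r q X i).card := by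
    intro i
    rw [Finset.sum_product]
    simp
  rw [Finset.sum_add_distrib, ← Finset.mul_sum, Finset.sum_comm]
  -- the diagonal
  have d1 : ∑ p ∈ PPa n r q X m, ∏ i, (if (p i).1 = (p i).2 then (1 : ℝ) else 0) ≤ Va n r q X m * X ^ (-a + κ) := by
    have h1 := Finset.prod_univ_sum (fun i : Fin m => SA n r q X i ×ˢ SA n r q X i)
      (fun _ (z : ℕ × ℕ) => if z.1 = z.2 then (1 : ℝ) else 0)
    unfold PPa
    rw [← h1]
    simp_rw [hdiag]
    calc ∏ i : Fin m, ((SA n r q X i).card : ℝ) ≤ ∏ i : Fin m, (va n r q X i * X ^ (-(ea n r q i))) :=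
          Finset.prod_le_prod (fun i _ => by positivity) fun i _ => hcard i
      _ = Va n r q X m * ∏ i : Fin m, X ^ (-(ea n r q i)) := by
          rw [Finset.prod_mul_distrib]
          rfl
      _ ≤ Va n r q X m * X ^ (-a + κ) := by
          apply mul_le_mul_of_nonneg_left _ hV
          rw [← Real.rpow_sum_of_pos hX0, Finset.sum_neg_distrib, Fin.sum_univ_eq_sum_range (fun i => ea n r q i) m]
          exact Real.rpow_le_rpow_of_exponent_le hX (by linarith)
  -- the other terms
  have d2 : ∀ i0 : Fin m, ∑ p ∈ PPa n r q X m, 2 * t * (lev q X i0) ^ (1 - a) * ∏ i, psi i0 i (p i) ≤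
      Va n r q X m * X ^ (-a + κ) * (2 * t * (1 + Real.log (2 * X))) := by
    intro i0
    rw [← Finset.mul_sum]
    have h1 := Finset.prod_univ_sum (fun i : Fin m => SA n r q X i ×ˢ SA n r q X i) (fun i (z : ℕ × ℕ) => psi i0 i z)
    unfold PPa
    rw [← h1]
    have hRHS : 0 ≤ Va n r q X m * X ^ (-a + κ) * (2 * t * (1 + Real.log (2 * X))) := by positivity
    by_cases hact : act n r i0
    swap
    · -- inactive: zero
      have h0 : ∏ i : Fin m, ∑ z ∈ SA n r q X i ×ˢ SA n r q X i, psi i0 i z = 0 := by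
        apply Finset.prod_eq_zero (Finset.mem_univ i0)
        apply Finset.sum_eq_zero
        intro z hz
        unfold SA at hz
        rw [if_neg hact, Finset.mem_product, Finset.mem_singleton, Finset.mem_singleton] at hz
        unfold psi od
        rw [if_neg (lt_irrefl _), if_pos rfl, if_pos (hz.1.trans hz.2.symm)]
      rw [h0, mul_zero]
      exact hRHS
    set L := 1 + Real.log (2 * X) with hLdef
    set c : Fin m → ℝ := fun i => if i = i0 then L else 1 with hc
    set e : Fin m → ℝ := fun i => if (i : ℕ) ≤ i0 then ea n r q i else 0 with he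
    have h2 : ∀ i : Fin m, ∑ z ∈ SA n r q X i ×ˢ SA n r q X i, psi i0 i z ≤ va n r q X i * (c i * X ^ (-(e i))) := by
      intro i
      have hl := lev_pos (q := q) hX (i : ℕ)
      rcases lt_trichotomy i i0 with h | h | h
      · have e1 : ∀ z : ℕ × ℕ, psi i0 i z = if z.1 = z.2 then (1 : ℝ) else 0 := by
          intro z
          unfold psi
          rw [if_pos h]
        simp_rw [e1]
        have e3 : e i = ea n r q i := by
          simp only [he]
          rw [if_pos (show (i : ℕ) ≤ i0 from h.le)]
        have e4 : c i = 1 := by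
          simp only [hc]
          rw [if_neg (ne_of_lt h)]
        rw [hdiag, e3, e4, one_mul]
        exact hcard i
      · have e1 : ∀ z : ℕ × ℕ, psi i0 i z = od z := by
          intro z
          unfold psi
          rw [if_neg (by rw [h]; exact lt_irrefl _), if_pos h]
        simp_rw [e1]
        have hacti : act n r i := by rw [h]; exact hact
        have e3 : e i = q ^ (i : ℕ) := by
          simp only [he]
          rw [if_pos (show (i : ℕ) ≤ i0 from h.le)]
          unfold ea
          rw [if_pos hacti]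
        have e4 : c i = L := by
          simp only [hc]
          rw [if_pos h]
        have hinv : X ^ (-(q ^ (i : ℕ))) = (lev q X i)⁻¹ := by
          unfold lev
          rw [Real.rpow_neg hX0.le]
        have eS : SA n r q X i = SS q X i := by unfold SA; rw [if_pos hacti]
        have eV : va n r q X i = 4 * lev q X i ^ 2 := by unfold va; rw [if_pos hacti]
        have h1l := one_le_lev hq.le hX (i : ℕ)
        have hn : 1 ≤ ⌊2 * lev q X i⌋₊ := by
          rw [Nat.le_floor_iff (by linarith)]
          push_cast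
          linarith
        have h5 := od_sum (SS q X i) ⌊2 * lev q X i⌋₊ (fun y hy => (Finset.mem_Icc.1 hy).2)
        have h6 : Real.log (⌊2 * lev q X i⌋₊ : ℝ) ≤ Real.log (2 * X) := by
          apply Real.log_le_log (by exact_mod_cast hn)
          refine (Nat.floor_le (by linarith)).trans ?_
          have : lev q X i ≤ lev q X 0 := lev_anti hq hq1 hX (Nat.zero_le _)
          have h00 : lev q X 0 = X := by unfold lev; simp
          linarith
        have h7 := SS_card hq.le hX (i : ℕ)
        rw [e3, e4, hinv, eS, eV]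
        calc ∑ z ∈ SS q X i ×ˢ SS q X i, od z ≤ (SS q X i).card * (2 * (1 + Real.log (⌊2 * lev q X i⌋₊ : ℝ))) := h5
          _ ≤ (2 * lev q X i) * (2 * L) := by
            apply mul_le_mul h7 (by linarith) _ (by linarith)
            have : 0 ≤ Real.log (⌊2 * lev q X i⌋₊ : ℝ) := Real.log_nonneg (by exact_mod_cast hn)
            positivity
          _ = 4 * lev q X i ^ 2 * (L * (lev q X i)⁻¹) := by
            field_simp
            ring
      · have e1 : ∀ z : ℕ × ℕ, psi i0 i z = 1 := by
          intro z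
          unfold psi
          rw [if_neg (not_lt.2 h.le), if_neg (ne_of_gt h)]
        simp_rw [e1]
        have e3 : e i = 0 := by
          simp only [he]
          rw [if_neg (not_le.2 (show (i0 : ℕ) < i from h))]
        have e4 : c i = 1 := by
          simp only [hc]
          rw [if_neg (ne_of_gt h)]
        rw [e3, e4, neg_zero, Real.rpow_zero, mul_one, mul_one, Finset.sum_const, Finset.card_product, nsmul_eq_mul,
          mul_one]
        push_cast
        unfold SA va
        by_cases hai : act n r i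
        · rw [if_pos hai, if_pos hai]
          have h7 := SS_card hq.le hX (i : ℕ)
          have h8 : (0 : ℝ) ≤ ((SS q X i).card : ℝ) := by positivity
          nlinarith
        · rw [if_neg hai, if_neg hai]
          simp
    have h3 : ∏ i : Fin m, ∑ z ∈ SA n r q X i ×ˢ SA n r q X i, psi i0 i z ≤
        Va n r q X m * (L * X ^ (-(∑ i, e i))) := by
      calc ∏ i : Fin m, ∑ z ∈ SA n r q X i ×ˢ SA n r q X i, psi i0 i z
          ≤ ∏ i : Fin m, va n r q X i * (c i * X ^ (-(e i))) :=
            Finset.prod_le_prod (fun i _ => Finset.sum_nonneg fun z _ => psi_nonneg _ _ _) fun i _ => h2 i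
        _ = Va n r q X m * (L * X ^ (-(∑ i, e i))) := by
            have e5 : ∏ i : Fin m, va n r q X i * (c i * X ^ (-(e i))) =
                (∏ i : Fin m, va n r q X i) * ((∏ i, c i) * ∏ i, X ^ (-(e i))) := by
              rw [← Finset.prod_mul_distrib, ← Finset.prod_mul_distrib]
            rw [e5, ← Finset.sum_neg_distrib, Real.rpow_sum_of_pos hX0]
            have hcc : ∏ i, c i = L := by
              simp only [hc]
              rw [Finset.prod_ite_eq' Finset.univ i0, if_pos (Finset.mem_univ _)]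
            rw [hcc]
            rfl
    have h4 : ∑ i, e i = ∑ i ∈ Finset.range (i0 : ℕ), ea n r q i + q ^ (i0 : ℕ) := by
      have h5 : ∑ i : Fin m, e i = ∑ i ∈ Finset.range m, if i ≤ (i0 : ℕ) then ea n r q i else 0 :=
        Fin.sum_univ_eq_sum_range (fun i => if i ≤ (i0 : ℕ) then ea n r q i else 0) m
      have h6 : ea n r q (i0 : ℕ) = q ^ (i0 : ℕ) := by unfold ea; rw [if_pos hact]
      rw [h5, ← Finset.sum_filter, ← h6, ← Finset.sum_range_succ]
      congr 1
      ext i
      have := i0.2
      simp only [Finset.mem_filter, Finset.mem_range]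
      omega
    have h5 := hB (i0 : ℕ) i0.2 hact
    have hl := lev_pos (q := q) hX (i0 : ℕ)
    have h6 : (lev q X i0) ^ (1 - a) = X ^ (q ^ (i0 : ℕ) * (1 - a)) := by
      unfold lev
      rw [← Real.rpow_mul hX0.le]
    calc 2 * t * (lev q X i0) ^ (1 - a) * ∏ i : Fin m, ∑ z ∈ SA n r q X i ×ˢ SA n r q X i, psi i0 i z
        ≤ 2 * t * (lev q X i0) ^ (1 - a) * (Va n r q X m * (L * X ^ (-(∑ i, e i)))) := by
          apply mul_le_mul_of_nonneg_left h3
          have := Real.rpow_pos_of_pos hl (1 - a)
          positivity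
      _ = Va n r q X m * (X ^ (q ^ (i0 : ℕ) * (1 - a)) * X ^ (-(∑ i, e i))) * (2 * t * L) := by
          rw [h6]; ring
      _ ≤ Va n r q X m * X ^ (-a + κ) * (2 * t * L) := by
          apply mul_le_mul_of_nonneg_right _ (by positivity)
          apply mul_le_mul_of_nonneg_left _ hV
          rw [← Real.rpow_add hX0]
          apply Real.rpow_le_rpow_of_exponent_le hX
          rw [h4]
          linarith
  have d3 := Finset.sum_le_sum fun i0 (_ : i0 ∈ (Finset.univ : Finset (Fin m))) => d2 i0
  rw [Finset.sum_const, Finset.card_univ, Fintype.card_fin, nsmul_eq_mul] at d3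
  have d4 := mul_le_mul_of_nonneg_left d1 (show 0 ≤ b - a by linarith)
  nlinarith

end Pool.Agent.J4H7.WM
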