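import Pool.Agent.J4H7.WM.A

set_option autoImplicit false

/-!
# Waring's problem with the coefficients `1` and `λ`, unequal numbers of variables, part B (helper7)

Borel-Cantelli.
-/

namespace Pool.Agent.J4H7.WM

open Real Set MeasureTheory Filter Topology Asymptotics
open Pool.Agent.J4H7.WE Pool.Agent.J4H7.WL

open scoped Classical in
/-- the number of near-coincidences -/
noncomputable def TA (n r : ℕ) (q X : ℝ) (k m : ℕ) (t l : ℝ) : ℕ := ((PPa n r q X m).filter fun p => |FL k p l| ≤ t).card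

lemma TA_eq {n r : ℕ} {q X a b t : ℝ} {k m : ℕ} {l : ℝ} (hl : l ∈ Icc a b) :
    ∑ p ∈ PPa n r q X m, (EL k a b t p).indicator (fun _ => (1 : ENNReal)) l = (TA n r q X k m t l : ENNReal) := by
  classical
  unfold TA
  rw [Finset.card_filter]
  push_cast
  refine Finset.sum_congr rfl fun p _ => ?_
  unfold EL
  by_cases h : |FL k p l| ≤ t
  · rw [if_pos h, Set.indicator_of_mem (show l ∈ {l | l ∈ Icc a b ∧ |FL k p l| ≤ t} from ⟨hl, h⟩)]
  · rw [if_neg h, Set.indicator_of_notMem (fun h' => h h'.2)]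

/-- the condition on the exponents -/
def HB (n r : ℕ) (q : ℝ) (k m : ℕ) (κ : ℝ) : Prop :=
  (∀ i0 < m, act n r i0 → (k : ℝ) - κ ≤ ∑ i ∈ Finset.range i0, ea n r q i + k * q ^ i0) ∧
    (k : ℝ) ≤ ∑ i ∈ Finset.range m, ea n r q i

/-- the measure of the bad coefficients -/
lemma badA_le {n r : ℕ} {q X a b t ε κ : ℝ} {k m : ℕ} (hk : 2 ≤ k) (hq : 0 < q) (hq1 : q < 1) (hX : 1 ≤ X) (ha : 0 < a)
    (hab : a ≤ b) (hb1 : 1 ≤ b) (ht : 0 ≤ t) (hκ : 0 ≤ κ) (hB : HB n r q k m κ)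
    (hc : ∀ i : Fin m, CD q k t m (lev q X i)) :
    volume {l | l ∈ Icc a b ∧ Va n r q X m * X ^ (-(k : ℝ) + κ + ε) ≤ TA n r q X k m t l} ≤
      ENNReal.ofReal (((b - a) + m * (2 * (2 * b * t) * (1 + Real.log (2 * X)))) * X ^ (-ε)) := by
  have hX0 : 0 < X := by linarith
  have hb0 : 0 ≤ b := by linarith
  set M : ℝ := Va n r q X m * X ^ (-(k : ℝ) + κ + ε) with hM
  have hM0 : 0 < M := mul_pos (Va_pos hX m) (Real.rpow_pos_of_pos hX0 _)
  set f : ℝ → ENNReal := fun l => ∑ p ∈ PPa n r q X m, (EL k a b t p).indicator (fun _ => (1 : ENNReal)) l with hf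
  have hfm : Measurable f := by
    apply Finset.measurable_sum
    intro p hp
    exact measurable_const.indicator (EL_meas k p)
  have h1 : {l | l ∈ Icc a b ∧ M ≤ TA n r q X k m t l} ⊆ {l | ENNReal.ofReal M ≤ f l} := by
    rintro l ⟨h2, h3⟩
    change ENNReal.ofReal M ≤ f l
    rw [hf]
    simp only
    rw [TA_eq h2]
    calc ENNReal.ofReal M ≤ ENNReal.ofReal (TA n r q X k m t l : ℝ) := ENNReal.ofReal_le_ofReal h3
      _ = _ := ENNReal.ofReal_natCast _
  have h2 := meas_ge_le_lintegral_div (μ := volume) hfm.aemeasurable (ε := ENNReal.ofReal M)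
    (by rw [Ne, ENNReal.ofReal_eq_zero, not_le]; exact hM0) ENNReal.ofReal_ne_top
  have h3 : ∫⁻ l, f l = ∑ p ∈ PPa n r q X m, volume (EL k a b t p) := by
    rw [hf]
    rw [lintegral_finsetSum]
    · refine Finset.sum_congr rfl fun p hp => ?_
      rw [lintegral_indicator (EL_meas k p), setLIntegral_const, one_mul]
    · intro p hp
      exact measurable_const.indicator (EL_meas k p)
  have h4 : ∑ p ∈ PPa n r q X m, volume (EL k a b t p) ≤
      ENNReal.ofReal (Va n r q X m * X ^ (-(k : ℝ) + κ) * ((b - a) + m * (2 * (2 * b * t) * (1 + Real.log (2 * X))))) := by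
    calc ∑ p ∈ PPa n r q X m, volume (EL k a b t p) ≤ ∑ p ∈ PPa n r q X m,
        ENNReal.ofReal (((k + (b - a) : ℝ) - k) * ∏ i, (if (p i).1 = (p i).2 then (1 : ℝ) else 0) +
        ∑ i0 : Fin m, 2 * (2 * b * t) * (lev q X i0) ^ (1 - (k : ℝ)) * ∏ i, psi i0 i (p i)) :=
          Finset.sum_le_sum fun p hp => volL_le' hk hq hq1 hX ha hab hb1 ht p (PPa_sub hq.le hX hp) hc
      _ = ENNReal.ofReal (∑ p ∈ PPa n r q X m, (((k + (b - a) : ℝ) - k) * ∏ i, (if (p i).1 = (p i).2 then (1 : ℝ) else 0) +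
        ∑ i0 : Fin m, 2 * (2 * b * t) * (lev q X i0) ^ (1 - (k : ℝ)) * ∏ i, psi i0 i (p i))) := by
          rw [ENNReal.ofReal_sum_of_nonneg]
          intro p _
          apply add_nonneg
          · apply mul_nonneg (by linarith)
            apply Finset.prod_nonneg
            intro i _
            split_ifs <;> norm_num
          · apply Finset.sum_nonneg
            intro i0 _
            have h1 := (Real.rpow_pos_of_pos (lev_pos (q := q) hX (i0 : ℕ)) (1 - (k : ℝ))).le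
            have h2 : 0 ≤ ∏ i, psi i0 i (p i) := Finset.prod_nonneg fun i _ => psi_nonneg _ _ _
            positivity
      _ ≤ _ := by
          apply ENNReal.ofReal_le_ofReal
          have := sum_leA (a := (k : ℝ)) (b := k + (b - a)) (t := 2 * b * t) hq hq1 hX (by linarith) (by positivity) hκ
            hB.1 hB.2
          rw [add_sub_cancel_left] at this
          rw [add_sub_cancel_left]
          exact this
  calc volume {l | l ∈ Icc a b ∧ M ≤ TA n r q X k m t l} ≤ volume {l | ENNReal.ofReal M ≤ f l} := measure_mono h1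
    _ ≤ (∫⁻ l, f l) / ENNReal.ofReal M := h2
    _ ≤ ENNReal.ofReal (Va n r q X m * X ^ (-(k : ℝ) + κ) * ((b - a) + m * (2 * (2 * b * t) * (1 + Real.log (2 * X))))) /
          ENNReal.ofReal M := by
        rw [h3]
        gcongr
    _ = _ := by
        rw [← ENNReal.ofReal_div_of_pos hM0]
        congr 1
        rw [hM, Real.rpow_add hX0 (-(k : ℝ) + κ) ε, Real.rpow_neg hX0.le ε]
        have h5 : X ^ (-(k : ℝ) + κ) ≠ 0 := (Real.rpow_pos_of_pos hX0 _).ne'
        have h6 : X ^ ε ≠ 0 := (Real.rpow_pos_of_pos hX0 _).ne'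
        have h7 : Va n r q X m ≠ 0 := (Va_pos hX m).ne'
        field_simp

/-- the mean value for almost every coefficient of an interval -/
theorem ae_intervalA {n r : ℕ} {q a b t ε κ : ℝ} {k m : ℕ} (hk : 2 ≤ k) (hq : 0 < q) (hq1 : q < 1) (ha : 0 < a) (hab : a ≤ b)
    (hb1 : 1 ≤ b) (ht : 0 ≤ t) (hε : 0 < ε) (hκ : 0 ≤ κ) (hA : q ^ 2 * k < (k : ℝ) - 1) (hB : HB n r q k m κ) :
    ∀ᵐ l : ℝ, l ∈ Icc a b → ∀ᶠ j : ℕ in atTop,
      (TA n r q ((2 : ℝ) ^ j) k m t l : ℝ) ≤ Va n r q ((2 : ℝ) ^ j) m * ((2 : ℝ) ^ j) ^ (-(k : ℝ) + κ + ε) := by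
  have hX1 : ∀ j : ℕ, (1 : ℝ) ≤ (2 : ℝ) ^ j := fun j => one_le_pow₀ (by norm_num)
  have hev : ∀ᶠ j : ℕ in atTop, ∀ i : ℕ, i ≤ m → CD q k t m (lev q ((2 : ℝ) ^ j) i) :=
    (tendsto_pow_atTop_atTop_of_one_lt (by norm_num : (1 : ℝ) < 2)).eventually (ev_lev hq hq1 m (ev_CD hk hA))
  obtain ⟨j0, hj0⟩ := eventually_atTop.1 hev
  set s : ℕ → Set ℝ := fun j => {l | l ∈ Icc a b ∧
    Va n r q ((2 : ℝ) ^ (j + j0)) m * ((2 : ℝ) ^ (j + j0)) ^ (-(k : ℝ) + κ + ε) ≤ TA n r q ((2 : ℝ) ^ (j + j0)) k m t l} with hs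
  have hsm : ∀ j, volume (s j) ≤ ENNReal.ofReal (((b - a) + m * (2 * (2 * b * t) *
      (1 + Real.log (2 * (2 : ℝ) ^ (j + j0))))) * ((2 : ℝ) ^ (j + j0)) ^ (-ε)) := fun j =>
    badA_le hk hq hq1 (hX1 _) ha hab hb1 ht hκ hB fun i => hj0 _ (by omega) i i.2.le
  have hsum : Summable fun j : ℕ => (((b - a) + m * (2 * (2 * b * t) * (1 + Real.log (2 * (2 : ℝ) ^ (j + j0))))) *
      ((2 : ℝ) ^ (j + j0)) ^ (-ε)) := by
    refine (summable_nat_add_iff (f := fun j : ℕ => (((b - a) + m * (2 * (2 * b * t) *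
      (1 + Real.log (2 * (2 : ℝ) ^ j)))) * ((2 : ℝ) ^ j) ^ (-ε))) j0).2 ?_
    set r : ℝ := (2 : ℝ) ^ (-ε) with hr
    have hr0 : 0 < r := Real.rpow_pos_of_pos (by norm_num) _
    have hr1 : r < 1 := Real.rpow_lt_one_of_one_lt_of_neg (by norm_num) (by linarith)
    have e1 : ∀ j : ℕ, (((b - a) + m * (2 * (2 * b * t) * (1 + Real.log (2 * (2 : ℝ) ^ j)))) * ((2 : ℝ) ^ j) ^ (-ε)) =
        ((b - a) + m * (2 * (2 * b * t) * (1 + Real.log 2))) * r ^ j +
          (m * (2 * (2 * b * t) * Real.log 2)) * ((j : ℝ) ^ 1 * r ^ j) := by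
      intro j
      have e2 : ((2 : ℝ) ^ j) ^ (-ε) = r ^ j := by
        rw [hr, ← Real.rpow_natCast, ← Real.rpow_natCast, ← Real.rpow_mul (by norm_num), ← Real.rpow_mul (by norm_num)]
        congr 1
        ring
      rw [e2, Real.log_mul (by norm_num) (by positivity), Real.log_pow]
      ring
    simp_rw [e1]
    have s1 : Summable fun j : ℕ => r ^ j := summable_geometric_of_lt_one hr0.le hr1
    have s2 : Summable fun j : ℕ => (j : ℝ) ^ 1 * r ^ j :=
      summable_pow_mul_geometric_of_norm_lt_one 1 (by rw [Real.norm_of_nonneg hr0.le]; exact hr1)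
    exact (s1.mul_left ((b - a) + m * (2 * (2 * b * t) * (1 + Real.log 2)))).add
      (s2.mul_left (m * (2 * (2 * b * t) * Real.log 2)))
  have hne : ∑' j, volume (s j) ≠ ⊤ := by
    refine ne_top_of_le_ne_top hsum.tsum_ofReal_ne_top (ENNReal.tsum_le_tsum hsm)
  filter_upwards [ae_eventually_notMem hne] with l hl hlI
  rw [eventually_atTop] at hl ⊢
  obtain ⟨j1, hj1⟩ := hl
  refine ⟨j1 + j0, fun j hj => ?_⟩
  have h1 := hj1 (j - j0) (by omega)
  have h2 : j - j0 + j0 = j := by omega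
  rw [hs] at h1
  simp only [h2, mem_ofPred_eq, not_and, not_le] at h1
  exact (h1 hlI).le

/-- for almost every positive coefficient -/
theorem ae_meanA (k m n r : ℕ) (hk : 2 ≤ k) {q κ : ℝ} (hq : 0 < q) (hq1 : q < 1) (hκ : 0 ≤ κ)
    (hA : q ^ 2 * k < (k : ℝ) - 1) (hB : HB n r q k m κ) :
    ∀ᵐ l : ℝ, 0 < l → ∀ ε : ℝ, 0 < ε → ∀ᶠ j : ℕ in atTop,
      (TA n r q ((2 : ℝ) ^ j) k m m l : ℝ) ≤ Va n r q ((2 : ℝ) ^ j) m * ((2 : ℝ) ^ j) ^ (-(k : ℝ) + κ + ε) := by
  have key : ∀ᵐ l : ℝ, ∀ N : ℕ, ∀ ε : ℚ, 0 < (ε : ℝ) → l ∈ Icc (1 / ((N : ℝ) + 1)) ((N : ℝ) + 1) →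
      ∀ᶠ j : ℕ in atTop, (TA n r q ((2 : ℝ) ^ j) k m m l : ℝ) ≤
        Va n r q ((2 : ℝ) ^ j) m * ((2 : ℝ) ^ j) ^ (-(k : ℝ) + κ + ε) := by
    rw [ae_all_iff]
    intro N
    rw [ae_all_iff]
    intro ε
    by_cases h : 0 < (ε : ℝ)
    · have h1 : 1 / ((N : ℝ) + 1) ≤ (N : ℝ) + 1 := by
        rw [div_le_iff₀ (by positivity)]
        have : (0 : ℝ) ≤ N := Nat.cast_nonneg N
        nlinarith
      filter_upwards [ae_intervalA (t := m) (ε := ε) hk hq hq1 (a := 1 / ((N : ℝ) + 1)) (b := (N : ℝ) + 1) (by positivity) h1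
        (by have : (0 : ℝ) ≤ N := Nat.cast_nonneg N
            linarith) (by positivity) h hκ hA hB] with l hl _ hI
      exact hl hI
    · exact Eventually.of_forall fun l h' => absurd h' h
  filter_upwards [key] with l hl hl0 ε hε
  obtain ⟨ε', h1, h2⟩ := exists_rat_btwn hε
  obtain ⟨N, hN⟩ := exists_nat_gt (max l (1 / l))
  have hn1 : l < N := (le_max_left _ _).trans_lt hN
  have hn2 : 1 / l < N := (le_max_right _ _).trans_lt hN
  have hmem : l ∈ Icc (1 / ((N : ℝ) + 1)) ((N : ℝ) + 1) := by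
    constructor
    · rw [div_le_iff₀ (by positivity)]
      rw [div_lt_iff₀ hl0] at hn2
      nlinarith
    · linarith
  filter_upwards [hl N ε' h1 hmem] with j hj
  refine hj.trans ?_
  have hX : (1 : ℝ) ≤ (2 : ℝ) ^ j := one_le_pow₀ (by norm_num)
  apply mul_le_mul_of_nonneg_left _ (Va_pos hX m).le
  exact Real.rpow_le_rpow_of_exponent_le hX (by linarith)

end Pool.Agent.J4H7.WM
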