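import Pool.Agent.J4H7.WM.B

set_option autoImplicit false

/-!
# Waring's problem with the coefficients `1` and `λ`, unequal numbers of variables, part C (helper7)

The exponents of the levels.
-/

namespace Pool.Agent.J4H7.WM

open Real Set Filter Topology
open Pool.Agent.J4H7.WE Pool.Agent.J4H7.WL

lemma act_even {n r j : ℕ} : act n r (2 * j) ↔ j < n := by
  unfold act
  rw [if_pos (by simp)]
  constructor <;> intro h <;> omega

lemma act_odd {n r j : ℕ} : act n r (2 * j + 1) ↔ j < r := by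
  unfold act
  rw [if_neg (by simp)]
  constructor <;> intro h <;> omega

lemma sum_two (f : ℕ → ℝ) (j : ℕ) : ∑ i ∈ Finset.range (2 * j), f i =
    ∑ i ∈ Finset.range j, f (2 * i) + ∑ i ∈ Finset.range j, f (2 * i + 1) := by
  induction j with
  | zero => simp
  | succ j ih =>
    rw [show 2 * (j + 1) = 2 * j + 1 + 1 by ring, Finset.sum_range_succ, Finset.sum_range_succ, ih, Finset.sum_range_succ,
      Finset.sum_range_succ]
    ring

lemma ea_nonneg {n r : ℕ} {q : ℝ} (hq : 0 ≤ q) (i : ℕ) : 0 ≤ ea n r q i := by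
  unfold ea
  split_ifs <;> positivity

lemma ea_even {n r : ℕ} {q : ℝ} {j : ℕ} (h : j < n) : ea n r q (2 * j) = (q ^ 2) ^ j := by
  unfold ea
  rw [if_pos (act_even.2 h), pow_mul]

lemma ea_odd {n r : ℕ} {q : ℝ} {j : ℕ} (h : j < r) : ea n r q (2 * j + 1) = q * (q ^ 2) ^ j := by
  unfold ea
  rw [if_pos (act_odd.2 h), pow_succ, pow_mul]
  ring

/-- the geometric sum -/
lemma geo (s : ℝ) (j : ℕ) : (1 - s) * ∑ i ∈ Finset.range j, s ^ i = 1 - s ^ j := by
  induction j with
  | zero => simp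
  | succ j ih =>
    rw [Finset.sum_range_succ, mul_add, ih, pow_succ]
    ring

lemma geo_ge {s k : ℝ} (hk : 0 < k) (hs : 0 < s) (hs1 : s ≤ 1 - 1 / k) (j : ℕ) :
    k - k * (k * (1 - s) - 1) ≤ ∑ i ∈ Finset.range j, s ^ i + k * s ^ j := by
  set G := ∑ i ∈ Finset.range j, s ^ i with hG
  have h1 := geo s j
  rw [← hG] at h1
  have h2 : 1 ≤ k * (1 - s) := by
    have : 1 / k ≤ 1 - s := by linarith
    rw [div_le_iff₀ hk] at this
    linarith
  have h3 : 0 < s ^ j := by positivity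
  have h4 : 0 ≤ G := Finset.sum_nonneg fun i _ => by positivity
  have h5 : G ≤ k := by
    -- (1 - s) G ≤ 1 ≤ k (1 - s)
    by_contra hne
    push Not at hne
    have h6 : 0 < 1 - s := by
      have : 0 < 1 / k := by positivity
      linarith
    have h7 : (1 - s) * k < (1 - s) * G := mul_lt_mul_of_pos_left hne h6
    linarith
  have h6 : G + k * s ^ j = k - (k * (1 - s) - 1) * G := by
    have : s ^ j = 1 - (1 - s) * G := by linarith
    rw [this]
    ring
  rw [h6]
  have h7 : (k * (1 - s) - 1) * G ≤ (k * (1 - s) - 1) * k := mul_le_mul_of_nonneg_left h5 (by linarith)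
  linarith

/-- the loss -/
noncomputable def lo (k : ℕ) (q : ℝ) : ℝ := k * (k * (1 - q ^ 2) - 1)

lemma ind_sum (M n : ℕ) (h : n ≤ M) (f : ℕ → ℝ) : ∑ j ∈ Finset.range n, f j = ∑ j ∈ Finset.range M, if j < n then f j else 0 := by
  rw [← Finset.sum_filter]
  congr 1
  ext j
  simp only [Finset.mem_filter, Finset.mem_range]
  omega

/-- the conditions on the exponents -/
lemma HB_of {k n r : ℕ} (hk : 2 ≤ k) (hn : 1 ≤ n) {q : ℝ} (hq : 0 < q) (hq1 : q < 1) (hqk : q ^ 2 ≤ 1 - 1 / (k : ℝ))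
    (hqB : (1 - q) * k ≤ 1) (hsum : (k : ℝ) ≤ ∑ j ∈ Finset.range n, (q ^ 2) ^ j + q * ∑ j ∈ Finset.range r, (q ^ 2) ^ j) :
    HB n r q k (2 * (max n r)) (lo k q) := by
  have hk0 : (0 : ℝ) < k := by
    have : 0 < k := by omega
    exact_mod_cast this
  have hs : 0 < q ^ 2 := by positivity
  have hlo : 0 ≤ lo k q := by
    unfold lo
    have : 1 / (k : ℝ) ≤ 1 - q ^ 2 := by linarith
    rw [div_le_iff₀ hk0] at this
    apply mul_nonneg hk0.le
    linarith
  constructor
  · intro i0 _ hact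
    rcases Nat.even_or_odd' i0 with ⟨j, rfl | rfl⟩
    · have hj := act_even.1 hact
      rw [sum_two, pow_mul]
      have h1 : ∑ i ∈ Finset.range j, ea n r q (2 * i) = ∑ i ∈ Finset.range j, (q ^ 2) ^ i :=
        Finset.sum_congr rfl fun i hi => ea_even ((Finset.mem_range.1 hi).trans hj)
      have h2 : 0 ≤ ∑ i ∈ Finset.range j, ea n r q (2 * i + 1) := Finset.sum_nonneg fun i _ => ea_nonneg hq.le _
      have h3 := geo_ge hk0 hs hqk j
      rw [h1]
      unfold lo
      linarith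
    · have hj := act_odd.1 hact
      rw [Finset.sum_range_succ, sum_two, pow_succ, pow_mul]
      have h1 : ∑ i ∈ Finset.range j, ea n r q (2 * i + 1) = q * ∑ i ∈ Finset.range j, (q ^ 2) ^ i := by
        rw [Finset.mul_sum]
        exact Finset.sum_congr rfl fun i hi => ea_odd ((Finset.mem_range.1 hi).trans hj)
      have h2 : 1 ≤ ∑ i ∈ Finset.range j, ea n r q (2 * i) + ea n r q (2 * j) := by
        rw [← Finset.sum_range_succ (fun i => ea n r q (2 * i)) j]
        have h3 : ea n r q (2 * 0) = 1 := by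
          rw [ea_even (by omega)]
          simp
        calc (1 : ℝ) = ea n r q (2 * 0) := h3.symm
          _ ≤ _ := Finset.single_le_sum (f := fun i => ea n r q (2 * i)) (fun i _ => ea_nonneg hq.le _)
            (Finset.mem_range.2 (by omega))
      have h3 := geo_ge hk0 hs hqk j
      have h4 : lo k q = k * (k * (1 - q ^ 2) - 1) := rfl
      rw [← h4] at h3
      have h5 : q * (k - lo k q) ≤ q * (∑ i ∈ Finset.range j, (q ^ 2) ^ i + k * (q ^ 2) ^ j) := mul_le_mul_of_nonneg_left h3 hq.le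
      rw [h1]
      nlinarith
  · rw [sum_two]
    have h1 : ∑ i ∈ Finset.range (max n r), ea n r q (2 * i) = ∑ j ∈ Finset.range n, (q ^ 2) ^ j := by
      rw [ind_sum (max n r) n (le_max_left _ _)]
      refine Finset.sum_congr rfl fun j _ => ?_
      by_cases h : j < n
      · rw [if_pos h, ea_even h]
      · rw [if_neg h]
        unfold ea
        rw [if_neg (fun h' => h (act_even.1 h'))]
    have h2 : ∑ i ∈ Finset.range (max n r), ea n r q (2 * i + 1) = q * ∑ j ∈ Finset.range r, (q ^ 2) ^ j := by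
      rw [Finset.mul_sum, ind_sum (max n r) r (le_max_right _ _)]
      refine Finset.sum_congr rfl fun j _ => ?_
      by_cases h : j < r
      · rw [if_pos h, ea_odd h]
      · rw [if_neg h]
        unfold ea
        rw [if_neg (fun h' => h (act_odd.1 h'))]
    rw [h1, h2]
    exact hsum

/-- **a suitable `q`** -/
lemma exists_qA {k n r : ℕ} (hk : 2 ≤ k) (hn : 1 ≤ n) (hr : 1 ≤ r)
    (h : Real.exp (-((2 * n - 1 : ℝ) / (2 * k))) + Real.exp (-((2 * r : ℝ) / (2 * k))) ≤ 1) {τ : ℝ} (hτ : 0 < τ) :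
    ∃ q : ℚ, 0 < (q : ℝ) ∧ (q : ℝ) < 1 ∧ (q : ℝ) ^ 2 * k < k - 1 ∧ 0 ≤ lo k q ∧ lo k q ≤ τ ∧
      HB n r q k (2 * (max n r)) (lo k q) := by
  have hk' : (2 : ℝ) ≤ k := by exact_mod_cast hk
  have hk0 : (0 : ℝ) < k := by linarith
  set w : ℝ := Real.sqrt (1 - 1 / k) with hw
  have h1 : 0 < 1 - 1 / (k : ℝ) := by
    rw [sub_pos, div_lt_one hk0]
    linarith
  have hw0 : 0 < w := Real.sqrt_pos.2 h1
  have hw2 : w ^ 2 = 1 - 1 / k := Real.sq_sqrt h1.le
  have hki : 0 < 1 / (k : ℝ) := by positivity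
  have hw1 : w < 1 := by
    have : w ^ 2 < 1 := by rw [hw2]; linarith
    nlinarith
  -- w < exp (-1 / 2k)
  have hwe : w < Real.exp (-(1 / (2 * k))) := by
    have h2 : w ^ 2 < Real.exp (-(1 / (2 * k))) ^ 2 := by
      rw [hw2, ← Real.exp_nat_mul]
      have h3 := Real.add_one_lt_exp (x := -(1 / (k : ℝ))) (by linarith)
      have h4 : ((2 : ℕ) : ℝ) * (-(1 / (2 * k))) = -(1 / (k : ℝ)) := by
        push_cast
        field_simp
      rw [h4]
      linarith
    exact lt_of_pow_lt_pow_left₀ 2 (Real.exp_pos _).le h2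
  -- the strict inequality
  have hstrict : w ^ (2 * n - 1) + w ^ (2 * r) < 1 := by
    have h2 : w ^ (2 * n - 1) < Real.exp (-((2 * n - 1 : ℝ) / (2 * k))) := by
      have h3 : Real.exp (-((2 * n - 1 : ℝ) / (2 * k))) = Real.exp (-(1 / (2 * k))) ^ (2 * n - 1) := by
        rw [← Real.exp_nat_mul]
        congr 1
        rw [Nat.cast_sub (by omega)]
        push_cast
        ring
      rw [h3]
      exact pow_lt_pow_left₀ hwe hw0.le (by omega)
    have h3 : w ^ (2 * r) < Real.exp (-((2 * r : ℝ) / (2 * k))) := by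
      have h4 : Real.exp (-((2 * r : ℝ) / (2 * k))) = Real.exp (-(1 / (2 * k))) ^ (2 * r) := by
        rw [← Real.exp_nat_mul]
        congr 1
        push_cast
        ring
      rw [h4]
      exact pow_lt_pow_left₀ hwe hw0.le (by omega)
    linarith
  -- the sum at w
  have hsumw : (k : ℝ) < ∑ j ∈ Finset.range n, (w ^ 2) ^ j + w * ∑ j ∈ Finset.range r, (w ^ 2) ^ j := by
    have g1 := geo (w ^ 2) n
    have g2 := geo (w ^ 2) r
    set G1 := ∑ j ∈ Finset.range n, (w ^ 2) ^ j
    set G2 := ∑ j ∈ Finset.range r, (w ^ 2) ^ j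
    have e1 : 1 - w ^ 2 = 1 / k := by rw [hw2]; ring
    rw [e1] at g1 g2
    have g1' : G1 = k * (1 - (w ^ 2) ^ n) := by
      field_simp at g1
      linarith
    have g2' : G2 = k * (1 - (w ^ 2) ^ r) := by
      field_simp at g2
      linarith
    rw [g1', g2', ← pow_mul, ← pow_mul]
    have e2 : w ^ (2 * n) = w * w ^ (2 * n - 1) := by
      rw [← pow_succ']
      congr 1
      omega
    rw [e2]
    have h5 : 0 < (k : ℝ) * (w * (1 - (w ^ (2 * n - 1) + w ^ (2 * r)))) := by
      have : 0 < 1 - (w ^ (2 * n - 1) + w ^ (2 * r)) := by linarith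
      positivity
    nlinarith
  -- continuity
  have hcont : ContinuousAt (fun x : ℝ => ∑ j ∈ Finset.range n, (x ^ 2) ^ j + x * ∑ j ∈ Finset.range r, (x ^ 2) ^ j) w := by
    apply Continuous.continuousAt
    fun_prop
  have hev1 : ∀ᶠ x in 𝓝 w, (k : ℝ) < ∑ j ∈ Finset.range n, (x ^ 2) ^ j + x * ∑ j ∈ Finset.range r, (x ^ 2) ^ j :=
    hcont.eventually (lt_mem_nhds hsumw)
  have hcont2 : ContinuousAt (fun x : ℝ => lo k x) w := by
    apply Continuous.continuousAt
    unfold lo
    fun_prop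
  have hlow : lo k w = 0 := by
    unfold lo
    rw [hw2]
    field_simp
    ring
  have hev2 : ∀ᶠ x in 𝓝 w, lo k x < τ := hcont2.eventually (gt_mem_nhds (show lo k w < τ by rw [hlow]; exact hτ))
  obtain ⟨δ, hδ, hδ2⟩ := Metric.eventually_nhds_iff.1 (hev1.and hev2)
  have hmax : max (w ^ 2) (w - δ) < w := max_lt (by nlinarith) (by linarith)
  obtain ⟨q, hq1, hq2⟩ := exists_rat_btwn hmax
  have hq1a : w ^ 2 < (q : ℝ) := lt_of_le_of_lt (le_max_left _ _) hq1
  have hq1b : w - δ < (q : ℝ) := lt_of_le_of_lt (le_max_right _ _) hq1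
  have hq0 : (0 : ℝ) < q := by
    have : 0 < w ^ 2 := by positivity
    linarith
  obtain ⟨f1, f2⟩ := hδ2 (y := (q : ℝ)) (by rw [Real.dist_eq, abs_lt]; constructor <;> linarith)
  have hq2' : (q : ℝ) ^ 2 < w ^ 2 := by nlinarith
  have hqq : (q : ℝ) ^ 2 * k < k - 1 := by
    have h3 : w ^ 2 * k = k - 1 := by
      rw [hw2]
      field_simp
    nlinarith
  have hB : (1 - (q : ℝ)) * k ≤ 1 := by
    have h3 : (1 - w ^ 2) * k = 1 := by
      rw [hw2]
      field_simp
      ring
    nlinarith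
  have hlo : 0 ≤ lo k q := by
    unfold lo
    apply mul_nonneg hk0.le
    nlinarith
  refine ⟨q, hq0, hq2.trans hw1, hqq, hlo, f2.le, ?_⟩
  exact HB_of hk hn hq0 (hq2.trans hw1) (by rw [← hw2]; exact hq2'.le) hB f1.le

end Pool.Agent.J4H7.WM
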