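import Pool.Agent.J4H7.WM.B
import Pool.Agent.J4H7.WL.F

set_option autoImplicit false

/-!
# Waring's problem with the coefficients `1` and `λ`, unequal numbers of variables, part D (helper7)

Representations from the mean value estimate, for a fixed coefficient.
-/

namespace Pool.Agent.J4H7.WM

open Real Set Filter Topology
open Pool.Agent.J4H7.WE Pool.Agent.J4H7.WL
open Pool.Agent.Helper153.Vdc (ee)

/-- the vectors -/
noncomputable def AAa (n r : ℕ) (q X : ℝ) (m : ℕ) : Finset (Fin m → ℕ) := Fintype.piFinset fun i : Fin m => SA n r q X i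

/-- the sum of the active terms -/
noncomputable def fsA (n r k : ℕ) (l : ℝ) {m : ℕ} (x : Fin m → ℕ) : ℕ :=
  ∑ i : Fin m, if act n r i then fc k (co l i) (x i) else 0

lemma SA_card_pos {n r : ℕ} {q X : ℝ} (hq : 0 ≤ q) (hX : 1 ≤ X) (i : ℕ) : 0 < (SA n r q X i).card := by
  unfold SA
  split_ifs
  · have h2 := SS_card_lower hq hX (i : ℕ)
    have h3 := lev_pos (q := q) hX (i : ℕ)
    have : (0 : ℝ) < ((SS q X i).card : ℝ) := by linarith
    exact_mod_cast this
  · simp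

lemma AAa_card_pos {n r : ℕ} {q X : ℝ} (hq : 0 ≤ q) (hX : 1 ≤ X) (m : ℕ) : 0 < (AAa n r q X m).card := by
  unfold AAa
  rw [Fintype.card_piFinset]
  exact Finset.prod_pos fun i _ => SA_card_pos hq hX _

lemma AAa_sub {n r : ℕ} {q X : ℝ} (hq : 0 ≤ q) (hX : 1 ≤ X) {m : ℕ} {x : Fin m → ℕ} (hx : x ∈ AAa n r q X m) :
    x ∈ AA q X m := by
  unfold AAa at hx
  unfold AA
  rw [Fintype.mem_piFinset] at hx ⊢
  exact fun i => SA_sub hq hX _ (hx i)

lemma fsA_le {n r : ℕ} {q X l : ℝ} {k m : ℕ} (hq : 0 < q) (hq1 : q < 1) (hX : 1 ≤ X) (hl : 0 < l) {x : Fin m → ℕ}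
    (hx : x ∈ AAa n r q X m) : (fsA n r k l x : ℝ) ≤ (2 * X) ^ k + m * ((1 + l) * (2 * X ^ q) ^ k) := by
  refine le_trans ?_ (fsL_le hq hq1 hX hl (AAa_sub hq.le hX hx))
  have h : fsA n r k l x ≤ fsL k l x := by
    unfold fsA fsL
    refine Finset.sum_le_sum fun i _ => ?_
    split_ifs
    · exact le_rfl
    · exact Nat.zero_le _
  exact_mod_cast h

lemma Va_le {n r : ℕ} {q X : ℝ} (hq : 0 ≤ q) (hX : 1 ≤ X) (m : ℕ) : Va n r q X m ≤ 16 ^ m * ((AAa n r q X m).card : ℝ) ^ 2 := by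
  unfold Va AAa
  rw [Fintype.card_piFinset]
  push_cast
  rw [← Finset.prod_pow]
  have h1 : (16 : ℝ) ^ m = ∏ _i : Fin m, (16 : ℝ) := by simp
  rw [h1, ← Finset.prod_mul_distrib]
  refine Finset.prod_le_prod (fun i _ => (va_pos hX _).le) fun i _ => ?_
  unfold va SA
  by_cases h : act n r i
  · rw [if_pos h, if_pos h]
    have h2 := SS_card_lower hq hX (i : ℕ)
    have h3 := lev_pos (q := q) hX (i : ℕ)
    nlinarith
  · rw [if_neg h, if_neg h]
    simp

/-- coincidences are near-coincidences -/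
lemma JJ_leA {n r : ℕ} {q X l : ℝ} {k m : ℕ} (hl : 0 < l) : JJ (AAa n r q X m) (fsA n r k l) ≤ TA n r q X k m m l := by
  classical
  unfold JJ TA
  refine Finset.card_le_card_of_injOn (fun p i => (p.1 i, p.2 i)) ?_ ?_
  · intro p hp
    rw [Finset.mem_coe, Finset.mem_filter, Finset.mem_product] at hp
    obtain ⟨⟨h1, h2⟩, h3⟩ := hp
    rw [Finset.mem_coe, Finset.mem_filter]
    refine ⟨?_, ?_⟩
    · rw [mem_PPa]
      intro i
      exact ⟨Fintype.mem_piFinset.1 h1 i, Fintype.mem_piFinset.1 h2 i⟩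
    · unfold FL
      simp only
      -- the errors
      set er : (Fin m → ℕ) → Fin m → ℝ := fun x i =>
        if act n r i then (co l i * ((x i : ℕ) : ℝ) ^ k - fc k (co l i) (x i)) else 0 with her
      have hin : ∀ i : Fin m, ¬ act n r i → p.1 i = p.2 i := by
        intro i hi
        have g1 := Fintype.mem_piFinset.1 h1 i
        have g2 := Fintype.mem_piFinset.1 h2 i
        unfold SA at g1 g2
        rw [if_neg hi, Finset.mem_singleton] at g1 g2
        rw [g1, g2]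
      have e1 : ∑ i : Fin m, co l i * (((p.1 i : ℕ) : ℝ) ^ k - ((p.2 i : ℕ) : ℝ) ^ k) =
          ∑ i : Fin m, (er p.1 i - er p.2 i) := by
        have h4 : ((fsA n r k l p.1 : ℕ) : ℝ) = fsA n r k l p.2 := by rw [h3]
        unfold fsA at h4
        push_cast at h4
        have h5 : ∑ i : Fin m, co l i * (((p.1 i : ℕ) : ℝ) ^ k - ((p.2 i : ℕ) : ℝ) ^ k) =
            ∑ i : Fin m, ((er p.1 i - er p.2 i) + ((if act n r i then (fc k (co l i) (p.1 i) : ℝ) else 0) -
              (if act n r i then (fc k (co l i) (p.2 i) : ℝ) else 0))) := by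
          refine Finset.sum_congr rfl fun i _ => ?_
          simp only [her]
          by_cases h : act n r i
          · simp only [if_pos h]
            ring
          · simp only [if_neg h, hin i h]
            ring
        rw [h5, Finset.sum_add_distrib]
        have h6 : ∑ i : Fin m, ((if act n r i then (fc k (co l i) (p.1 i) : ℝ) else 0) -
              (if act n r i then (fc k (co l i) (p.2 i) : ℝ) else 0)) = 0 := by
          rw [Finset.sum_sub_distrib, sub_eq_zero]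
          exact h4
        rw [h6, add_zero]
      rw [e1]
      refine (Finset.abs_sum_le_sum_abs _ _).trans ?_
      calc ∑ i : Fin m, |er p.1 i - er p.2 i| ≤ ∑ _i : Fin m, (1 : ℝ) := by
            refine Finset.sum_le_sum fun i _ => ?_
            simp only [her]
            by_cases h : act n r i
            · simp only [if_pos h]
              obtain ⟨a1, a2⟩ := fc_err k (co_nonneg hl i) (p.1 i)
              obtain ⟨b1, b2⟩ := fc_err k (co_nonneg hl i) (p.2 i)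
              rw [abs_le]
              constructor <;> linarith
            · simp only [if_neg h]
              simp
        _ = m := by simp
  · intro p _ p' _ h
    have h1 : ∀ i, (p.1 i, p.2 i) = (p'.1 i, p'.2 i) := fun i => congrFun h i
    apply Prod.ext
    · funext i
      exact congrArg Prod.fst (h1 i)
    · funext i
      exact congrArg Prod.snd (h1 i)

/-- a block of integers -/
theorem repr_blockA {k : ℕ} (hk : 2 ≤ k) {l c : ℝ} (hl : 0 < l) (hc : 0 < c) (hd : DC c l) :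
    ∃ τ0 : ℝ, 0 < τ0 ∧ ∀ (n r m : ℕ) (q : ℝ), 0 < q → q < 1 →
    (∀ᶠ j : ℕ in atTop,
      (TA n r q ((2 : ℝ) ^ j) k m m l : ℝ) ≤ Va n r q ((2 : ℝ) ^ j) m * ((2 : ℝ) ^ j) ^ (-(k : ℝ) + τ0)) →
    ∀ᶠ j : ℕ in atTop, ∀ N : ℕ, (16 * (2 : ℝ) ^ j) ^ k ≤ N → (N : ℝ) ≤ (32 * (2 : ℝ) ^ j) ^ k →
      ∃ (x y : Fin m → ℕ) (z z' : ℕ), (∀ i, 1 ≤ x i) ∧ (∀ i, 1 ≤ y i) ∧ 1 ≤ z ∧ 1 ≤ z' ∧
        fsA n r k l x + fsA n r k l y + (z ^ k + fc k l z') = N := by
  classical
  have hk' : (2 : ℝ) ≤ k := by exact_mod_cast hk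
  set ρ : ℝ := 1 / 4 with hρd
  have hρ : 0 < ρ := by norm_num
  obtain ⟨c', hc', X1, hX1, H1⟩ := count_lowerL hk hl hc hd
  obtain ⟨σ, hσ, hσ1, C, hC, X2, hX2, H2⟩ := joint hk hl hc hd (η := ρ / 4) (by positivity) (by norm_num)
  set τ : ℝ := min (ρ / 2) σ with hτ
  have hτ0 : 0 < τ := lt_min (by positivity) hσ
  have hκ := kap_pos hl
  have hκ2 := kap_le hl
  refine ⟨τ / 2, by positivity, fun n r m q hq hq1 hMV => ?_⟩
  have hj : Tendsto (fun j : ℕ => (2 : ℝ) ^ j) atTop atTop := tendsto_pow_atTop_atTop_of_one_lt (by norm_num)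
  have ev1 : ∀ᶠ X : ℝ in atTop, (m * (1 + l) + 1 : ℝ) ≤ (X ^ (1 - q)) ^ (k : ℝ) :=
    ((tendsto_rpow_atTop (by linarith : (0 : ℝ) < k)).comp (tendsto_rpow_atTop (by linarith : 0 < 1 - q))).eventually_ge_atTop _
  have ev2 : ∀ᶠ X : ℝ in atTop, (2 * (60000 + 2 * C) * 16 ^ m / c' + 1) ≤ X ^ (τ / 2) :=
    (tendsto_rpow_atTop (by positivity)).eventually_ge_atTop _
  have ev3 : ∀ᶠ X : ℝ in atTop, 2 / kap l ≤ X := eventually_ge_atTop _
  have evX := hj.eventually ((eventually_ge_atTop (max (max X1 X2) 4)).and (ev1.and (ev2.and ev3)))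
  filter_upwards [evX, hMV] with j hjX hMVj
  set X : ℝ := (2 : ℝ) ^ j with hXdef
  obtain ⟨gX, g1, g2, g3⟩ := hjX
  have gX1 : X1 ≤ X := (le_max_left _ _).trans ((le_max_left _ _).trans gX)
  have gX2 : X2 ≤ X := (le_max_right _ _).trans ((le_max_left _ _).trans gX)
  have gX4 : 4 ≤ X := (le_max_right _ _).trans gX
  have hX1' : (1 : ℝ) ≤ X := by linarith
  have hX0 : 0 < X := by linarith
  intro N hN1 hN2
  -- notation
  set W : ℕ := ⌈X ^ ((k : ℝ) - ρ)⌉₊ with hW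
  have hXθρ : 1 ≤ X ^ ((k : ℝ) - ρ) := Real.one_le_rpow hX1' (by rw [hρd]; linarith)
  have hWl : X ^ ((k : ℝ) - ρ) ≤ W := Nat.le_ceil _
  have hWu : (W : ℝ) ≤ 2 * X ^ ((k : ℝ) - ρ) := by
    have := Nat.ceil_lt_add_one (show 0 ≤ X ^ ((k : ℝ) - ρ) by linarith)
    rw [← hW] at this
    linarith
  have hW1 : 1 ≤ W := by
    have : (1 : ℝ) ≤ W := hXθρ.trans hWl
    exact_mod_cast this
  have hW0 : (0 : ℝ) < W := by exact_mod_cast hW1
  set A := AAa n r q X m with hA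
  set w : ℕ × ℕ → ℝ := w2 k l with hw
  have hw0 : ∀ p, 0 ≤ w p := fun p => ww_nonneg _
  have hcard : 0 < (A.card : ℝ) := by
    have h1 : 0 < A.card := by
      rw [hA]
      exact AAa_card_pos hq.le hX1' m
    exact_mod_cast h1
  have hXk : 0 < X ^ (k : ℝ) := Real.rpow_pos_of_pos hX0 _
  -- the bound for the generating functions
  have hB : ∀ α : ℝ, |α| ≤ 1 / 2 → ‖GGs (BB X ×ˢ B2 l X) (gg2 k l) w α‖ * ‖1 - KK W α‖ ≤ (60000 + 2 * C) * X ^ (2 - τ) := by
    intro α hα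
    have hXτ : 0 < X ^ (2 - τ) := Real.rpow_pos_of_pos hX0 _
    have hY4 : 4 * X ≤ (⌈4 * X⌉₊ : ℝ) := Nat.le_ceil _
    have hYM := BB_len hX1'
    have hB2 := B2_len hl hX1'
    rw [hw, GGsL_eq, norm_mul]
    rcases le_or_gt (X ^ (2 * (ρ / 4))) (|α| * X ^ (k : ℝ)) with h | h
    · have h1 := H2 X gX2 α hα h _ _ ⌈kap l * X⌉₊ _ hY4 hYM hB2
      have h2 := KK_le hW1 α
      calc _ ≤ (C * X ^ (2 - σ)) * 2 := mul_le_mul h1 h2 (norm_nonneg _) (by positivity)
        _ ≤ (C * X ^ (2 - τ)) * 2 := by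
            apply mul_le_mul_of_nonneg_right _ (by norm_num)
            apply mul_le_mul_of_nonneg_left _ (by linarith)
            exact Real.rpow_le_rpow_of_exponent_le hX1' (by linarith [min_le_right (ρ / 2) σ])
        _ ≤ _ := by nlinarith
    · have h1 := SE_triv (k : ℝ) ⌈4 * X⌉₊ (⌊64 * X⌋₊ + 1 - ⌈4 * X⌉₊) α
      have h1' : ((⌊64 * X⌋₊ + 1 - ⌈4 * X⌉₊ : ℕ) : ℝ) ≤ 65 * X := by
        have : (0 : ℝ) ≤ (⌈4 * X⌉₊ : ℝ) := by positivity
        linarith
      have h1'' := GLs_triv k l ⌈kap l * X⌉₊ (⌊2 * kap l * X⌋₊ + 1 - ⌈kap l * X⌉₊) α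
      have h2 := KK_small hW1 α
      have h3 : |α| ≤ X ^ (2 * (ρ / 4)) / X ^ (k : ℝ) := by
        rw [le_div_iff₀ hXk]
        exact h.le
      have h4 : ‖1 - KK W α‖ ≤ 13 * X ^ (-(ρ / 2)) := by
        calc ‖1 - KK W α‖ ≤ 2 * Real.pi * W * |α| := h2
          _ ≤ 2 * Real.pi * (2 * X ^ ((k : ℝ) - ρ)) * (X ^ (2 * (ρ / 4)) / X ^ (k : ℝ)) := by
            have := Real.pi_pos
            gcongr
          _ = 4 * Real.pi * (X ^ ((k : ℝ) - ρ) * X ^ (2 * (ρ / 4)) / X ^ (k : ℝ)) := by ring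
          _ = 4 * Real.pi * X ^ (-(ρ / 2)) := by
            rw [← Real.rpow_add hX0, ← Real.rpow_sub hX0]
            congr 2
            ring
          _ ≤ 13 * X ^ (-(ρ / 2)) := by
            apply mul_le_mul_of_nonneg_right _ (Real.rpow_nonneg hX0.le _)
            have := Real.pi_lt_d2
            linarith
      calc _ ≤ ((65 * X) * (65 * X)) * (13 * X ^ (-(ρ / 2))) :=
            mul_le_mul (mul_le_mul (h1.trans h1') (h1''.trans hB2) (norm_nonneg _) (by positivity)) h4 (norm_nonneg _)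
              (by positivity)
        _ = 54925 * X ^ (2 - ρ / 2) := by
            rw [show 2 - ρ / 2 = 1 + 1 + -(ρ / 2) by ring, Real.rpow_add hX0, Real.rpow_add hX0, Real.rpow_one]
            ring
        _ ≤ 54925 * X ^ (2 - τ) := by
            apply mul_le_mul_of_nonneg_left _ (by norm_num)
            exact Real.rpow_le_rpow_of_exponent_le hX1' (by linarith [min_le_left (ρ / 2) σ])
        _ ≤ _ := by nlinarith
  have key := RR_avg A (fsA n r k l) (BB X ×ˢ B2 l X) (gg2 k l) w (W := W) (N : ℤ) hB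
  -- powers
  have p1 : (16 : ℝ) ≤ (4 : ℝ) ^ k := by
    have : (4 : ℝ) ^ 2 ≤ (4 : ℝ) ^ k := pow_le_pow_right₀ (by norm_num) hk
    linarith
  have p2 : (64 : ℝ) ≤ (8 : ℝ) ^ k := by
    have : (8 : ℝ) ^ 2 ≤ (8 : ℝ) ^ k := pow_le_pow_right₀ (by norm_num) hk
    linarith
  have hXkn : 0 < X ^ k := by positivity
  have e16 : (16 * X) ^ k = 8 ^ k * (2 * X) ^ k := by
    rw [← mul_pow]
    congr 1
    ring
  have e16' : (16 * X) ^ k = 4 ^ k * (4 * X) ^ k := by
    rw [← mul_pow]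
    congr 1
    ring
  have e4 : (4 * X) ^ k = 4 ^ k * X ^ k := mul_pow _ _ _
  have h2X : 0 < (2 * X) ^ k := by positivity
  have h4X : 0 < (4 * X) ^ k := by positivity
  have hsmall : (m : ℝ) * ((1 + l) * (2 * X ^ q) ^ k) ≤ (2 * X) ^ k := by
    have e1 : (2 * X) ^ k = (2 * X ^ q) ^ k * (X ^ (1 - q)) ^ k := by
      rw [← mul_pow]
      congr 1
      rw [mul_assoc, ← Real.rpow_add hX0]
      rw [show q + (1 - q) = 1 by ring, Real.rpow_one]
    rw [Real.rpow_natCast] at g1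
    rw [e1]
    have h5 : 0 ≤ (2 * X ^ q) ^ k := by positivity
    nlinarith
  have hfs : ∀ x ∈ A, (fsA n r k l x : ℝ) ≤ 2 * (2 * X) ^ k := by
    intro x hx
    have := fsA_le (k := k) hq hq1 hX1' hl hx
    linarith
  -- the average from below
  have havg : (A.card : ℝ) ^ 2 * (c' * X ^ (2 - ρ)) ≤
      ∑ h ∈ Finset.range W, RR A (fsA n r k l) (BB X ×ˢ B2 l X) (gg2 k l) w ((N : ℤ) - h) := by
    have e1 : ∑ h ∈ Finset.range W, RR A (fsA n r k l) (BB X ×ˢ B2 l X) (gg2 k l) w ((N : ℤ) - h) =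
        ∑ a ∈ A, ∑ a' ∈ A, ∑ b ∈ BB X ×ˢ B2 l X, ∑ h ∈ Finset.range W,
          if ((fsA n r k l a : ℤ) + fsA n r k l a' + gg2 k l b = (N : ℤ) - h) then w b else 0 := by
      unfold RR
      rw [Finset.sum_comm]
      refine Finset.sum_congr rfl fun a _ => ?_
      rw [Finset.sum_comm]
      refine Finset.sum_congr rfl fun a' _ => ?_
      rw [Finset.sum_comm]
    rw [e1]
    have h2 : ∀ a ∈ A, ∀ a' ∈ A, c' * X ^ (2 - ρ) ≤ ∑ b ∈ BB X ×ˢ B2 l X, ∑ h ∈ Finset.range W,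
        if ((fsA n r k l a : ℤ) + fsA n r k l a' + gg2 k l b = (N : ℤ) - h) then w b else 0 := by
      intro a ha a' ha'
      have f1 := hfs a ha
      have f2 := hfs a' ha'
      have hle : fsA n r k l a + fsA n r k l a' ≤ N := by
        have : ((fsA n r k l a + fsA n r k l a' : ℕ) : ℝ) ≤ N := by
          push_cast
          nlinarith
        exact_mod_cast this
      set T : ℕ := N - (fsA n r k l a + fsA n r k l a') with hT
      have hTr : (T : ℝ) = N - (fsA n r k l a + fsA n r k l a') := by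
        rw [hT, Nat.cast_sub hle]
        push_cast
        ring
      have hT1 : (4 * X) ^ k + X ^ k ≤ (T : ℝ) - W + 1 := by
        have a1 : (W : ℝ) ≤ 2 * X ^ k := by
          have : X ^ ((k : ℝ) - ρ) ≤ X ^ (k : ℝ) := Real.rpow_le_rpow_of_exponent_le hX1' (by linarith)
          rw [Real.rpow_natCast] at this
          linarith
        have a2 : (N : ℝ) / 2 ≤ T := by
          rw [hTr]
          nlinarith
        have a3 : 16 * (4 * X) ^ k ≤ N := by
          rw [e16'] at hN1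
          nlinarith
        have a4 : 16 * X ^ k ≤ (4 * X) ^ k := by
          rw [e4]
          nlinarith
        linarith
      have hT2 : (T : ℝ) ≤ (32 * X) ^ k := by
        have : (0 : ℝ) ≤ (fsA n r k l a : ℝ) + fsA n r k l a' := by positivity
        rw [hTr]
        linarith
      refine (H1 X gX1 W T hWl hT1 hT2).trans ?_
      refine Finset.sum_le_sum fun b _ => ?_
      by_cases hb : T < b.1 ^ k + fc k l b.2 + W ∧ b.1 ^ k + fc k l b.2 ≤ T
      · rw [if_pos hb]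
        set h : ℕ := T - (b.1 ^ k + fc k l b.2) with hh
        have hmem : h ∈ Finset.range W := by
          rw [Finset.mem_range]
          omega
        have h3 := Finset.single_le_sum (f := fun h : ℕ => if ((fsA n r k l a : ℤ) + fsA n r k l a' + gg2 k l b = (N : ℤ) - h) then w b else 0)
          (fun h _ => by
            split_ifs
            · exact hw0 _
            · exact le_rfl) hmem
        refine le_trans ?_ h3
        have hgb : gg2 k l b = b.1 ^ k + fc k l b.2 := rfl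
        rw [if_pos (by rw [hgb]; omega)]
        exact le_rfl
      · rw [if_neg hb]
        apply Finset.sum_nonneg
        intro h _
        split_ifs
        · exact hw0 _
        · exact le_rfl
    calc (A.card : ℝ) ^ 2 * (c' * X ^ (2 - ρ)) = ∑ _a ∈ A, ∑ _a' ∈ A, c' * X ^ (2 - ρ) := by
          simp only [Finset.sum_const, nsmul_eq_mul]
          ring
      _ ≤ _ := Finset.sum_le_sum fun a ha => Finset.sum_le_sum fun a' ha' => h2 a ha a' ha'
  -- the number of coincidences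
  have hJ : (JJ A (fsA n r k l) : ℝ) ≤ 16 ^ m * (A.card : ℝ) ^ 2 * X ^ (-(k : ℝ) + τ / 2) := by
    have h1 : (JJ A (fsA n r k l) : ℝ) ≤ TA n r q X k m m l := by exact_mod_cast JJ_leA hl
    have h2 := Va_le (n := n) (r := r) hq.le hX1' m
    calc (JJ A (fsA n r k l) : ℝ) ≤ TA n r q X k m m l := h1
      _ ≤ Va n r q X m * X ^ (-(k : ℝ) + τ / 2) := hMVj
      _ ≤ _ := mul_le_mul_of_nonneg_right h2 (Real.rpow_nonneg hX0.le _)
  -- positivity
  have hpos : 0 < RR A (fsA n r k l) (BB X ×ˢ B2 l X) (gg2 k l) w (N : ℤ) := by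
    have h1 := (abs_le.1 key).1
    have hX1θ : 0 < X ^ (2 - (k : ℝ)) := Real.rpow_pos_of_pos hX0 _
    have h2 : (A.card : ℝ) ^ 2 * (c' / 2 * X ^ (2 - (k : ℝ))) ≤
        1 / (W : ℝ) * ∑ h ∈ Finset.range W, RR A (fsA n r k l) (BB X ×ˢ B2 l X) (gg2 k l) w ((N : ℤ) - h) := by
      have h3 : (A.card : ℝ) ^ 2 * (c' / 2 * X ^ (2 - (k : ℝ))) ≤ 1 / (W : ℝ) * ((A.card : ℝ) ^ 2 * (c' * X ^ (2 - ρ))) := by
        have h4 : X ^ (2 - ρ) = X ^ (2 - (k : ℝ)) * X ^ ((k : ℝ) - ρ) := by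
          rw [← Real.rpow_add hX0]
          congr 1
          ring
        have h5 : (W : ℝ) * X ^ (2 - (k : ℝ)) ≤ 2 * X ^ (2 - ρ) := by
          rw [h4]
          nlinarith
        rw [one_div, ← div_eq_inv_mul, le_div_iff₀ hW0]
        have h6 : 0 ≤ (A.card : ℝ) ^ 2 * (c' / 2) := by positivity
        nlinarith [mul_le_mul_of_nonneg_left h5 h6]
      refine h3.trans ?_
      exact mul_le_mul_of_nonneg_left havg (by positivity)
    have h7 : (60000 + 2 * C) * X ^ (2 - τ) * JJ A (fsA n r k l) ≤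
        (A.card : ℝ) ^ 2 * X ^ (2 - (k : ℝ)) * ((60000 + 2 * C) * 16 ^ m / X ^ (τ / 2)) := by
      have h8 : X ^ (2 - τ) * X ^ (-(k : ℝ) + τ / 2) = X ^ (2 - (k : ℝ)) / X ^ (τ / 2) := by
        rw [← Real.rpow_add hX0, ← Real.rpow_sub hX0]
        congr 1
        ring
      calc (60000 + 2 * C) * X ^ (2 - τ) * JJ A (fsA n r k l)
          ≤ (60000 + 2 * C) * X ^ (2 - τ) * (16 ^ m * (A.card : ℝ) ^ 2 * X ^ (-(k : ℝ) + τ / 2)) := by
            apply mul_le_mul_of_nonneg_left hJ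
            have := Real.rpow_nonneg hX0.le (2 - τ)
            have : 0 ≤ 60000 + 2 * C := by linarith
            positivity
        _ = (60000 + 2 * C) * 16 ^ m * (A.card : ℝ) ^ 2 * (X ^ (2 - τ) * X ^ (-(k : ℝ) + τ / 2)) := by ring
        _ = _ := by rw [h8]; ring
    have h9 : (60000 + 2 * C) * 16 ^ m / X ^ (τ / 2) < c' / 2 := by
      have hXτ : 0 < X ^ (τ / 2) := Real.rpow_pos_of_pos hX0 _
      rw [div_lt_iff₀ hXτ]
      have h10 : 2 * (60000 + 2 * C) * 16 ^ m / c' < X ^ (τ / 2) := by linarith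
      rw [div_lt_iff₀ hc'] at h10
      linarith
    have h11 : 0 < (A.card : ℝ) ^ 2 * X ^ (2 - (k : ℝ)) := by positivity
    nlinarith [mul_lt_mul_of_pos_left h9 h11]
  -- extraction
  unfold RR at hpos
  obtain ⟨a, ha, h1⟩ := Finset.exists_ne_zero_of_sum_ne_zero hpos.ne'
  obtain ⟨a', ha', h2⟩ := Finset.exists_ne_zero_of_sum_ne_zero h1
  obtain ⟨b, hb, h3⟩ := Finset.exists_ne_zero_of_sum_ne_zero h2
  have h4 : (fsA n r k l a : ℤ) + fsA n r k l a' + gg2 k l b = N := by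
    by_contra hne
    exact h3 (if_neg hne)
  have hge : ∀ x ∈ A, ∀ i, 1 ≤ x i := by
    intro x hx i
    have h5 := (mem_SS hX1').1 (SA_sub hq.le hX1' _ (Fintype.mem_piFinset.1 hx i))
    have h6 := one_le_lev hq.le hX1' (i : ℕ)
    exact_mod_cast h6.trans h5.1
  rw [Finset.mem_product] at hb
  refine ⟨a, a', b.1, b.2, hge a ha, hge a' ha', ?_, ?_, ?_⟩
  · have hb1 := hb.1
    unfold BB at hb1
    rw [Finset.mem_Ico, Nat.ceil_le] at hb1
    have : (1 : ℝ) ≤ b.1 := by linarith [hb1.1]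
    exact_mod_cast this
  · have hb2 := hb.2
    unfold B2 at hb2
    rw [Finset.mem_Ico, Nat.ceil_le] at hb2
    rw [div_le_iff₀ hκ] at g3
    have : (1 : ℝ) ≤ b.2 := by linarith [hb2.1]
    exact_mod_cast this
  · unfold gg2 at h4
    exact_mod_cast h4

/-- **all large integers** -/
theorem repr_allA {k : ℕ} (hk : 2 ≤ k) {l c : ℝ} (hl : 0 < l) (hc : 0 < c) (hd : DC c l) :
    ∃ τ0 : ℝ, 0 < τ0 ∧ ∀ (n r m : ℕ) (q : ℝ), 0 < q → q < 1 →
    (∀ᶠ j : ℕ in atTop,
      (TA n r q ((2 : ℝ) ^ j) k m m l : ℝ) ≤ Va n r q ((2 : ℝ) ^ j) m * ((2 : ℝ) ^ j) ^ (-(k : ℝ) + τ0)) →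
    ∀ᶠ N : ℕ in atTop,
      ∃ (x y : Fin m → ℕ) (z z' : ℕ), (∀ i, 1 ≤ x i) ∧ (∀ i, 1 ≤ y i) ∧ 1 ≤ z ∧ 1 ≤ z' ∧
        fsA n r k l x + fsA n r k l y + (z ^ k + fc k l z') = N := by
  obtain ⟨τ0, hτ0, H⟩ := repr_blockA hk hl hc hd
  refine ⟨τ0, hτ0, fun n r m q hq hq1 hMV => ?_⟩
  obtain ⟨j0, hj0⟩ := eventually_atTop.1 (H n r m q hq hq1 hMV)
  have hk0 : (0 : ℝ) < k := by
    have : 0 < k := by omega
    exact_mod_cast this
  have h1 : Tendsto (fun N : ℕ => (N : ℝ) ^ (1 / (k : ℝ))) atTop atTop :=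
    (tendsto_rpow_atTop (by positivity)).comp tendsto_natCast_atTop_atTop
  filter_upwards [h1.eventually_ge_atTop (16 * (2 : ℝ) ^ (j0 + 1))] with N hN
  set v : ℝ := (N : ℝ) ^ (1 / (k : ℝ)) with hv
  have hvθ : v ^ k = N := by
    rw [← Real.rpow_natCast, hv, ← Real.rpow_mul (by positivity), one_div_mul_cancel hk0.ne', Real.rpow_one]
  have h2 : (1 : ℝ) ≤ v / 16 := by
    have : (1 : ℝ) ≤ (2 : ℝ) ^ (j0 + 1) := one_le_pow₀ (by norm_num)
    linarith
  obtain ⟨j, hj1, hj2⟩ := exists_nat_pow_near h2 (by norm_num : (1 : ℝ) < 2)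
  have hj : j0 ≤ j := by
    by_contra hlt
    have h3 : (2 : ℝ) ^ (j + 1) ≤ (2 : ℝ) ^ (j0 + 1) := pow_le_pow_right₀ (by norm_num) (by omega)
    linarith
  refine hj0 j hj N ?_ ?_
  · rw [← hvθ]
    exact pow_le_pow_left₀ (by positivity) (by linarith) k
  · rw [← hvθ]
    apply pow_le_pow_left₀ (by linarith)
    rw [pow_succ] at hj2
    linarith

end Pool.Agent.J4H7.WM
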