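import Pool.Agent.J4H7.WM.C
import Pool.Agent.J4H7.WM.D
import Pool.Agent.J4H7.WL.G

set_option autoImplicit false

/-!
# Waring's problem with the coefficients `1` and `λ`, unequal numbers of variables, part G (helper7)

The main theorem.
-/

namespace Pool.Agent.J4H7.WM

open Real Set Filter Topology MeasureTheory
open Pool.Agent.J4H7.WE Pool.Agent.J4H7.WL

/-- the number of active levels of each kind -/
lemma act_count (n r m : ℕ) : (∑ i ∈ Finset.range m, if (Even i ∧ act n r i) then 1 else 0) ≤ n ∧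
    (∑ i ∈ Finset.range m, if (¬ Even i ∧ act n r i) then 1 else 0) ≤ r := by
  have key : ∀ M : ℕ, (∑ i ∈ Finset.range (2 * M), if (Even i ∧ act n r i) then 1 else 0) = min n M ∧
    (∑ i ∈ Finset.range (2 * M), if (¬ Even i ∧ act n r i) then 1 else 0) = min r M := by
    intro M
    induction M with
    | zero => simp
    | succ M ih =>
      obtain ⟨h1, h2⟩ := ih
      have e1 : Even (2 * M) := by simp
      have e2 : ¬ Even (2 * M + 1) := by simp
      rw [show 2 * (M + 1) = 2 * M + 1 + 1 by ring, Finset.sum_range_succ, Finset.sum_range_succ, Finset.sum_range_succ,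
        Finset.sum_range_succ, h1, h2]
      have a1 : act n r (2 * M) ↔ M < n := act_even
      have a2 : act n r (2 * M + 1) ↔ M < r := act_odd
      constructor
      · rw [if_neg (fun h : Even (2 * M + 1) ∧ act n r (2 * M + 1) => e2 h.1)]
        by_cases h : M < n
        · rw [if_pos ⟨e1, a1.2 h⟩]
          omega
        · rw [if_neg (fun h' : Even (2 * M) ∧ act n r (2 * M) => h (a1.1 h'.2))]
          omega
      · rw [if_neg (fun h : ¬ Even (2 * M) ∧ act n r (2 * M) => h.1 e1)]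
        by_cases h : M < r
        · rw [if_pos ⟨e2, a2.2 h⟩]
          omega
        · rw [if_neg (fun h' : ¬ Even (2 * M + 1) ∧ act n r (2 * M + 1) => h (a2.1 h'.2))]
          omega
  have hsub : Finset.range m ⊆ Finset.range (2 * m) := by
    intro i hi
    rw [Finset.mem_range] at hi ⊢
    omega
  obtain ⟨h1, h2⟩ := key m
  constructor
  · refine (Finset.sum_le_sum_of_subset hsub).trans ?_
    rw [h1]
    exact min_le_left _ _
  · refine (Finset.sum_le_sum_of_subset hsub).trans ?_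
    rw [h2]
    exact min_le_left _ _

/-- joining the variables -/
lemma joinA {k n r : ℕ} {l : ℝ} {m u v : ℕ} (hu : 2 * n + 1 ≤ u) (hv : 2 * r + 1 ≤ v) :
    ∃ R : ℕ, ∀ (x y : Fin m → ℕ) (z z' : ℕ), (∀ i, 1 ≤ x i) → (∀ i, 1 ≤ y i) → 1 ≤ z → 1 ≤ z' →
      ∃ (a : Fin u → ℕ) (b : Fin v → ℕ), (∀ i, 1 ≤ a i) ∧ (∀ i, 1 ≤ b i) ∧
        ∑ i, (a i) ^ k + ∑ i, fc k l (b i) = fsA n r k l x + fsA n r k l y + (z ^ k + fc k l z') + R := by
  classical
  obtain ⟨c1, c2⟩ := act_count n r m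
  set n1 : ℕ := 1 + 2 * (∑ i ∈ Finset.range m, if (Even i ∧ act n r i) then 1 else 0) with hn1
  set n2 : ℕ := 1 + 2 * (∑ i ∈ Finset.range m, if (¬ Even i ∧ act n r i) then 1 else 0) with hn2
  refine ⟨(u - n1) * 1 ^ k + (v - n2) * fc k l 1, ?_⟩
  intro x y z z' hx hy hz hz'
  set S1 : Finset (Option (Fin m × Bool)) := Finset.univ.filter fun o => match o with
    | none => True
    | some p => (Even (p.1 : ℕ) ∧ act n r p.1) with hS1
  set S2 : Finset (Option (Fin m × Bool)) := Finset.univ.filter fun o => match o with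
    | none => True
    | some p => (¬ Even (p.1 : ℕ) ∧ act n r p.1) with hS2
  -- sums over these sets
  have sum1 : ∀ F : Option (Fin m × Bool) → ℕ, ∑ o ∈ S1, F o =
      F none + ∑ i : Fin m, if (Even (i : ℕ) ∧ act n r i) then (F (some (i, true)) + F (some (i, false))) else 0 := by
    intro F
    rw [hS1, Finset.sum_filter, Fintype.sum_option, Fintype.sum_prod_type]
    simp only [if_true]
    congr 1
    refine Finset.sum_congr rfl fun i _ => ?_
    rw [Fintype.sum_bool]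
    by_cases h : Even (i : ℕ) ∧ act n r i
    · simp only [if_pos h]
    · simp only [if_neg h, add_zero]
  have sum2 : ∀ F : Option (Fin m × Bool) → ℕ, ∑ o ∈ S2, F o =
      F none + ∑ i : Fin m, if (¬ Even (i : ℕ) ∧ act n r i) then (F (some (i, true)) + F (some (i, false))) else 0 := by
    intro F
    rw [hS2, Finset.sum_filter, Fintype.sum_option, Fintype.sum_prod_type]
    simp only [if_true]
    congr 1
    refine Finset.sum_congr rfl fun i _ => ?_
    rw [Fintype.sum_bool]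
    by_cases h : ¬ Even (i : ℕ) ∧ act n r i
    · simp only [if_pos h]
    · simp only [if_neg h, add_zero]
  have card1 : S1.card = n1 := by
    rw [Finset.card_eq_sum_ones, sum1, hn1,
      ← Fin.sum_univ_eq_sum_range (fun i => if (Even i ∧ act n r i) then 1 else 0) m, Finset.mul_sum]
    congr 1
    refine Finset.sum_congr rfl fun i _ => ?_
    split_ifs <;> rfl
  have card2 : S2.card = n2 := by
    rw [Finset.card_eq_sum_ones, sum2, hn2,
      ← Fin.sum_univ_eq_sum_range (fun i => if (¬ Even i ∧ act n r i) then 1 else 0) m, Finset.mul_sum]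
    congr 1
    refine Finset.sum_congr rfl fun i _ => ?_
    split_ifs <;> rfl
  set X1 : Option (Fin m × Bool) → ℕ := fun o => match o with
    | none => z
    | some p => if p.2 then x p.1 else y p.1 with hX1
  set X2 : Option (Fin m × Bool) → ℕ := fun o => match o with
    | none => z'
    | some p => if p.2 then x p.1 else y p.1 with hX2
  obtain ⟨a, ha1, ha2⟩ := pad S1 X1 (fun o _ => by
    cases o with
    | none => exact hz
    | some p =>
      simp only [hX1]
      split_ifs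
      · exact hx _
      · exact hy _) (fun t => t ^ k) (u := u) (by omega)
  obtain ⟨b, hb1, hb2⟩ := pad S2 X2 (fun o _ => by
    cases o with
    | none => exact hz'
    | some p =>
      simp only [hX2]
      split_ifs
      · exact hx _
      · exact hy _) (fc k l) (u := v) (by omega)
  refine ⟨a, b, ha1, hb1, ?_⟩
  rw [ha2, hb2, card1, card2, sum1, sum2]
  simp only [hX1, hX2, if_true, Bool.false_eq_true, if_false]
  have e1 : fsA n r k l x + fsA n r k l y =
      (∑ i : Fin m, if (Even (i : ℕ) ∧ act n r i) then (x i ^ k + y i ^ k) else 0) +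
      ∑ i : Fin m, if (¬ Even (i : ℕ) ∧ act n r i) then (fc k l (x i) + fc k l (y i)) else 0 := by
    unfold fsA
    rw [← Finset.sum_add_distrib, ← Finset.sum_add_distrib]
    refine Finset.sum_congr rfl fun i _ => ?_
    unfold co
    by_cases ha : act n r i
    · by_cases h : Even (i : ℕ)
      · simp only [ha, h, if_true, fc_one, and_self, not_true_eq_false, false_and, if_false, add_zero]
      · simp only [ha, h, if_true, and_true, not_false_eq_true, if_false, zero_add]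
    · simp only [ha, and_false, if_false]
  rw [e1]
  ring

/-- for fixed `k` -/
theorem main (k : ℕ) (hk : 2 ≤ k) : ∀ᵐ l : ℝ, 0 < l → ∀ u v : ℕ,
    Real.exp (-((u - 3 : ℝ) / (2 * k))) + Real.exp (-((v - 2 : ℝ) / (2 * k))) ≤ 1 →
    ∃ N₀ : ℕ, ∀ N : ℕ, N₀ ≤ N → ∃ (x : Fin u → ℕ) (y : Fin v → ℕ), (∀ i, 1 ≤ x i) ∧ (∀ j, 1 ≤ y j) ∧
      ∑ i, (x i) ^ k + ∑ j, ⌊l * (y j : ℝ) ^ k⌋₊ = N := by
  have hk' : (2 : ℝ) ≤ k := by exact_mod_cast hk
  have hk0 : (0 : ℝ) < k := by linarith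
  -- all mean values simultaneously
  have hmv : ∀ᵐ l : ℝ, ∀ (n r : ℕ) (q : ℚ), (0 < (q : ℝ) ∧ (q : ℝ) < 1 ∧ (q : ℝ) ^ 2 * k < k - 1 ∧ 0 ≤ lo k q ∧
      HB n r q k (2 * (max n r)) (lo k q)) → 0 < l → ∀ ε : ℝ, 0 < ε → ∀ᶠ j : ℕ in atTop,
      (TA n r q ((2 : ℝ) ^ j) k (2 * (max n r)) (2 * (max n r) : ℕ) l : ℝ) ≤
        Va n r q ((2 : ℝ) ^ j) (2 * (max n r)) * ((2 : ℝ) ^ j) ^ (-(k : ℝ) + lo k q + ε) := by
    rw [ae_all_iff]
    intro n
    rw [ae_all_iff]
    intro r
    rw [ae_all_iff]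
    intro q
    by_cases h : (0 < (q : ℝ) ∧ (q : ℝ) < 1 ∧ (q : ℝ) ^ 2 * k < k - 1 ∧ 0 ≤ lo k q ∧
      HB n r q k (2 * (max n r)) (lo k q))
    · obtain ⟨h1, h2, h3, h4, h5⟩ := h
      filter_upwards [ae_meanA k (2 * (max n r)) n r hk h1 h2 h4 h3 h5] with l hl _
      exact hl
    · exact Eventually.of_forall fun l h' => absurd h' h
  filter_upwards [ae_DC, hmv] with l hdc hmean hl u v huv
  obtain ⟨c, hc, hd⟩ := hdc
  -- the numbers of levels
  have hu4 : 4 ≤ u := by
    by_contra hne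
    push Not at hne
    have h1 : (u : ℝ) ≤ 3 := by
      have : u ≤ 3 := by omega
      exact_mod_cast this
    have h2 : 1 ≤ Real.exp (-((u - 3 : ℝ) / (2 * k))) := by
      apply Real.one_le_exp
      rw [← neg_div]
      apply div_nonneg (by linarith) (by positivity)
    have := Real.exp_pos (-((v - 2 : ℝ) / (2 * k)))
    linarith
  have hv3 : 3 ≤ v := by
    by_contra hne
    push Not at hne
    have h1 : (v : ℝ) ≤ 2 := by
      have : v ≤ 2 := by omega
      exact_mod_cast this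
    have h2 : 1 ≤ Real.exp (-((v - 2 : ℝ) / (2 * k))) := by
      apply Real.one_le_exp
      rw [← neg_div]
      apply div_nonneg (by linarith) (by positivity)
    have := Real.exp_pos (-((u - 3 : ℝ) / (2 * k)))
    linarith
  set n := (u - 1) / 2 with hn
  set r := (v - 1) / 2 with hr
  have hn1 : 2 * n + 1 ≤ u := by omega
  have hr1 : 2 * r + 1 ≤ v := by omega
  have hn2 : u ≤ 2 * n + 2 := by omega
  have hr2 : v ≤ 2 * r + 2 := by omega
  have hexp : Real.exp (-((2 * n - 1 : ℝ) / (2 * k))) + Real.exp (-((2 * r : ℝ) / (2 * k))) ≤ 1 := by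
    have h1 : Real.exp (-((2 * n - 1 : ℝ) / (2 * k))) ≤ Real.exp (-((u - 3 : ℝ) / (2 * k))) := by
      apply Real.exp_le_exp.2
      apply neg_le_neg
      apply div_le_div_of_nonneg_right _ (by positivity)
      have : (u : ℝ) ≤ 2 * n + 2 := by exact_mod_cast hn2
      linarith
    have h2 : Real.exp (-((2 * r : ℝ) / (2 * k))) ≤ Real.exp (-((v - 2 : ℝ) / (2 * k))) := by
      apply Real.exp_le_exp.2
      apply neg_le_neg
      apply div_le_div_of_nonneg_right _ (by positivity)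
      have : (v : ℝ) ≤ 2 * r + 2 := by exact_mod_cast hr2
      linarith
    linarith
  obtain ⟨τ0, hτ0, H⟩ := repr_allA hk hl hc hd
  obtain ⟨q, hq0, hq1, hqk, hlo, hloτ, hHB⟩ := exists_qA hk (n := n) (r := r) (by omega) (by omega) hexp
    (show 0 < τ0 / 2 by positivity)
  have hm := hmean n r q ⟨hq0, hq1, hqk, hlo, hHB⟩ hl (τ0 / 2) (by positivity)
  have hm' : ∀ᶠ j : ℕ in atTop, (TA n r q ((2 : ℝ) ^ j) k (2 * (max n r)) (2 * (max n r) : ℕ) l : ℝ) ≤
      Va n r q ((2 : ℝ) ^ j) (2 * (max n r)) * ((2 : ℝ) ^ j) ^ (-(k : ℝ) + τ0) := by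
    filter_upwards [hm] with j hj
    refine hj.trans ?_
    have hX : (1 : ℝ) ≤ (2 : ℝ) ^ j := one_le_pow₀ (by norm_num)
    apply mul_le_mul_of_nonneg_left _ (Va_pos hX _).le
    exact Real.rpow_le_rpow_of_exponent_le hX (by linarith)
  obtain ⟨N1, hN1⟩ := eventually_atTop.1 (H n r (2 * (max n r)) q hq0 hq1 hm')
  obtain ⟨R, hR⟩ := joinA (k := k) (l := l) (m := 2 * (max n r)) hn1 hr1
  refine ⟨N1 + R, fun N hN => ?_⟩
  obtain ⟨x, y, z, z', hx, hy, hz, hz', h3⟩ := hN1 (N - R) (by omega)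
  obtain ⟨a, b, ha, hb, h4⟩ := hR x y z z' hx hy hz hz'
  refine ⟨a, b, ha, hb, ?_⟩
  have h5 : ∑ i, (a i) ^ k + ∑ i, fc k l (b i) = N := by
    rw [h4, h3]
    omega
  exact h5

/-- all exponents simultaneously -/
theorem main_all : ∀ᵐ l : ℝ, 0 < l → ∀ k u v : ℕ, 2 ≤ k →
    Real.exp (-((u - 3 : ℝ) / (2 * k))) + Real.exp (-((v - 2 : ℝ) / (2 * k))) ≤ 1 →
    ∃ N₀ : ℕ, ∀ N : ℕ, N₀ ≤ N → ∃ (x : Fin u → ℕ) (y : Fin v → ℕ), (∀ i, 1 ≤ x i) ∧ (∀ j, 1 ≤ y j) ∧
      ∑ i, (x i) ^ k + ∑ j, ⌊l * (y j : ℝ) ^ k⌋₊ = N := by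
  have h : ∀ᵐ l : ℝ, ∀ k : ℕ, 2 ≤ k → 0 < l → ∀ u v : ℕ,
      Real.exp (-((u - 3 : ℝ) / (2 * k))) + Real.exp (-((v - 2 : ℝ) / (2 * k))) ≤ 1 →
      ∃ N₀ : ℕ, ∀ N : ℕ, N₀ ≤ N → ∃ (x : Fin u → ℕ) (y : Fin v → ℕ), (∀ i, 1 ≤ x i) ∧ (∀ j, 1 ≤ y j) ∧
        ∑ i, (x i) ^ k + ∑ j, ⌊l * (y j : ℝ) ^ k⌋₊ = N := by
    rw [ae_all_iff]
    intro k
    by_cases hk : 2 ≤ k
    · filter_upwards [main k hk] with l hl _
      exact hl
    · exact Eventually.of_forall fun l hk' => absurd hk' hk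
  filter_upwards [h] with l hl hl0 k u v hk huv
  exact hl k hk hl0 u v huv

end Pool.Agent.J4H7.WM
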